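import Mathlib

open Finset

namespace Pool.Agent.Results.MP_fc29f1_nt.Fails

def bin (a : ℚ) (k : ℕ) : ℚ := (∏ i ∈ range k, (a - i)) / k.factorial

def Cg (p m : ℕ) (u v : ℚ) : Prop := (p : ℤ) ^ m ∣ (u - v).num

def S1 (p : ℕ) : ℚ := ∑ k ∈ range p, bin (-1 / 2) k * bin (-1 / 3) k * (-3) ^ k
def S2 (p : ℕ) : ℚ := ∑ k ∈ range p, bin (-1 / 2) k * bin (-1 / 3) k / (-27) ^ k
def S3 (p : ℕ) : ℚ := ∑ k ∈ range p, bin (-1 / 2) k * bin (-2 / 3) k / (-4) ^ k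
def S4 (p : ℕ) : ℚ := ∑ k ∈ range p, bin (-1 / 2) k * bin (-1 / 3) k / 5 ^ k
def S5 (p : ℕ) : ℚ := ∑ k ∈ range p, bin (-1 / 2) k * bin (-1 / 3) k * 2 ^ k

theorem result : ¬ ∀ p : ℕ, p.Prime → 5 < p →
    (p % 3 = 1 → ∀ A B : ℤ, (p : ℤ) = A ^ 2 + 3 * B ^ 2 → 3 ∣ A - 1 →
      Cg p 2 (S1 p) (2 * A - p / (2 * A)) ∧ Cg p 2 (S2 p) (2 * A - p / (2 * A)) ∧
      Cg p 2 (S3 p) (2 * A - p / (2 * A)) ∧
      Cg p 2 (jacobiSym p 5 * S4 p) (2 * A - p / (2 * A)) ∧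
      Cg p 2 (jacobiSym (-1) p * S5 p) (2 * A - p / (2 * A))) ∧
    (p % 3 = 2 → Cg p 1 (S1 p) 0 ∧ Cg p 1 (S2 p) 0 ∧ Cg p 1 (S3 p) 0 ∧ Cg p 1 (S4 p) 0 ∧
      Cg p 1 (S5 p) 0) := by
  intro h
  have h1 := ((h 7 (by norm_num) (by norm_num)).1 rfl (-2) 1 (by norm_num) (by norm_num)).2.1
  have h2 : S2 7 - (2 * ((-2 : ℤ) : ℚ) - ((7 : ℕ) : ℚ) / (2 * ((-2 : ℤ) : ℚ)))
      = 703629413168059 / 216905884017408 := by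
    simp only [S2, bin, sum_range_succ, prod_range_succ, range_zero, sum_empty, prod_empty,
      Nat.factorial]
    norm_num
  rw [Cg, h2] at h1
  revert h1
  norm_num

end Pool.Agent.Results.MP_fc29f1_nt.Fails
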